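import Pool.Agent.Helper15.BP.Slope

/-!
# Regularisation of a dense set in a finite abelian group

A set `A` in a finite abelian group `G` has a piece `A ∩ (x + V)` such that the uniform
distribution on its translate by `-x`, a family in `V`, has slope at most `κ`, while the
deficiency of the piece plus `κ log [G : V + 2G]` is at most the deficiency of `A`.
-/

set_option autoImplicit false

namespace Pool.Agent.Helper15.BP

open Finset

/-- the number of `v ∈ V` with `x + v ∈ A` -/
noncomputable def nReg {G : Type} [AddCommGroup G] (A : Finset G) (V : AddSubgroup G) (x : G) : ℕ :=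
  {v : G | v ∈ V ∧ x + v ∈ A}.ncard

/-- the quantity maximised -/
noncomputable def phiReg {G : Type} [AddCommGroup G] (A : Finset G) (κ : ℝ) (V : AddSubgroup G)
    (x : G) : ℝ :=
  Real.log (nReg A V x) - Real.log (Nat.card V) - κ * Real.log (V ⊔ dbl G).index

theorem nReg_top {G : Type} [AddCommGroup G] (A : Finset G) : nReg A ⊤ 0 = A.card := by
  unfold nReg
  have : {v : G | v ∈ (⊤ : AddSubgroup G) ∧ 0 + v ∈ A} = (A : Set G) := by
    ext v; simp
  rw [this, Set.ncard_coe_finset]

/-- the space of the uniform family -/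
abbrev RegΩ {G : Type} [AddCommGroup G] (A : Finset G) (V : AddSubgroup G) (x : G) : Type :=
  {v : V // x + (v : G) ∈ A}

theorem card_RegΩ {G : Type} [AddCommGroup G] (A : Finset G) (V : AddSubgroup G) (x : G) :
    Nat.card (RegΩ A V x) = nReg A V x := by
  unfold nReg
  rw [← Nat.card_coe_set_eq]
  refine Nat.card_congr
    { toFun := fun o => ⟨(o.1 : G), o.1.2, o.2⟩
      invFun := fun o => ⟨⟨o.1, o.2.1⟩, o.2.2⟩
      left_inv := fun o => rfl
      right_inv := fun o => rfl }

theorem isPr_unif {Ω : Type} [Fintype Ω] [Nonempty Ω] :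
    IsPr (fun _ : Ω => 1 / (Nat.card Ω : ℝ)) := by
  refine ⟨fun _ => by positivity, ?_⟩
  rw [Finset.sum_const, Finset.card_univ, nsmul_eq_mul, ← Nat.card_eq_fintype_card]
  have : (Nat.card Ω : ℝ) ≠ 0 := by
    have := Nat.card_pos (α := Ω)
    positivity
  field_simp

/-- the uniform family on a piece -/
noncomputable def unifFam {G : Type} [AddCommGroup G] [Finite G] (A : Finset G)
    (V : AddSubgroup G) (x : G) [Nonempty (RegΩ A V x)] : Fam V where
  Ω := RegΩ A V x
  ι := Unit
  fin := Fintype.ofFinite _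
  w := fun _ => 1 / (Nat.card (RegΩ A V x) : ℝ)
  hw := by
    let _ : Fintype (RegΩ A V x) := Fintype.ofFinite _
    exact isPr_unif
  J := fun _ => ()
  Y := fun o => o.1

/-- mass of a fibre under the uniform distribution -/
theorem pr_unif {Ω α : Type} [Fintype Ω] (k : ℝ) (f : Ω → α) (a : α) :
    pr (fun _ : Ω => k) f a = k * {o : Ω | f o = a}.ncard := by
  classical
  unfold pr
  rw [← Finset.sum_filter, Finset.sum_const, nsmul_eq_mul, mul_comm]
  congr 2
  rw [← Set.ncard_coe_finset]
  congr 1
  ext o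
  simp

/-- lower bound for an entropy from an upper bound for all fibres -/
theorem le_Ent_of_le {Ω α : Type} [Fintype Ω] {w : Ω → ℝ} (hw : IsPr w) (f : Ω → α) (t : ℝ)
    (h : ∀ o, t ≤ -Real.log (pr w f (f o))) : t ≤ Ent w f := by
  unfold Ent
  calc t = ∑ o, w o * t := by rw [← Finset.sum_mul, hw.sum_one, one_mul]
    _ ≤ _ := Finset.sum_le_sum fun o _ => mul_le_mul_of_nonneg_left (h o) (hw.nonneg o)

/-- the index bound used for the slope -/
theorem index_map_sup_dbl_le {G : Type} [AddCommGroup G] [Finite G] (V : AddSubgroup G)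
    (H : AddSubgroup V) :
    (H.map V.subtype ⊔ dbl G).index ≤ (H ⊔ dbl V).index * (V ⊔ dbl G).index := by
  have hHV : H.map V.subtype ≤ V := by
    rintro _ ⟨v, -, rfl⟩
    exact v.2
  have h1 : (H.map V.subtype ⊔ dbl G) ≤ V ⊔ dbl G := sup_le_sup_right hHV _
  have h2 := AddSubgroup.relIndex_mul_index h1
  have h3 : (H.map V.subtype ⊔ dbl G) ⊔ V = V ⊔ dbl G := by
    rw [sup_comm, ← sup_assoc, sup_eq_left.2 hHV]
  have h4 : (H.map V.subtype ⊔ dbl G).relIndex (V ⊔ dbl G) =
      (H.map V.subtype ⊔ dbl G).relIndex V := by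
    rw [← h3]
    exact AddSubgroup.relIndex_sup_left V (H.map V.subtype ⊔ dbl G)
  rw [← h2, h4]
  refine Nat.mul_le_mul_right _ ?_
  have h5 : H ⊔ dbl V ≤ (H.map V.subtype ⊔ dbl G).addSubgroupOf V := by
    refine sup_le ?_ ?_
    · intro v hv
      rw [AddSubgroup.mem_addSubgroupOf]
      exact (le_sup_left : _ ≤ H.map V.subtype ⊔ dbl G) ⟨v, hv, rfl⟩
    · intro v hv
      rw [mem_dbl] at hv
      obtain ⟨y, rfl⟩ := hv
      rw [AddSubgroup.mem_addSubgroupOf]
      refine (le_sup_right : _ ≤ H.map V.subtype ⊔ dbl G) ?_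
      rw [mem_dbl]
      exact ⟨y, by simp⟩
  show ((H.map V.subtype ⊔ dbl G).addSubgroupOf V).index ≤ _
  exact Nat.le_of_dvd (Nat.pos_of_ne_zero AddSubgroup.index_ne_zero_of_finite)
    (AddSubgroup.index_dvd_of_le h5)

theorem reg {G : Type} [AddCommGroup G] [Finite G] [DecidableEq G] (A : Finset G)
    (hA : A.Nonempty) (κ : ℝ) (hκ : 0 < κ) :
    ∃ (V : AddSubgroup G) (x : G) (B : Fam V), Slope B κ ∧
      B.D ⊥ + κ * Real.log (V ⊔ dbl G).index ≤ Real.log (Nat.card G) - Real.log A.card ∧
      (∀ o, x + (B.Y o : G) ∈ A) := by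
  classical
  -- the maximiser
  have hne : Nonempty {p : AddSubgroup G × G // 0 < nReg A p.1 p.2} :=
    ⟨⟨(⊤, 0), by simpa [nReg_top] using hA.card_pos⟩⟩
  obtain ⟨⟨⟨V, x⟩, hpos⟩, hmax⟩ := Finite.exists_max
    (fun p : {p : AddSubgroup G × G // 0 < nReg A p.1 p.2} => phiReg A κ p.1.1 p.1.2)
  have hmax' : ∀ (W : AddSubgroup G) (y : G), 0 < nReg A W y →
      phiReg A κ W y ≤ phiReg A κ V x := fun W y h => hmax ⟨(W, y), h⟩
  simp only at hpos
  have hcard := card_RegΩ A V x
  have hne' : Nonempty (RegΩ A V x) := by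
    by_contra h
    rw [not_nonempty_iff] at h
    rw [Nat.card_of_isEmpty] at hcard
    omega
  have hn : (0 : ℝ) < Nat.card (RegΩ A V x) := by
    exact_mod_cast Nat.card_pos
  have hnR : (0 : ℝ) < nReg A V x := by exact_mod_cast hpos
  have hV : (0 : ℝ) < Nat.card V := by exact_mod_cast Nat.card_pos
  have hJ : Ent (unifFam A V x).w (unifFam A V x).J = 0 := Ent_const (unifFam A V x).hw ()
  -- masses of fibres
  have hpr : ∀ (H : AddSubgroup V) (o : (unifFam A V x).Ω),
      pr (unifFam A V x).w (fun o => ((unifFam A V x).J o,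
        (QuotientAddGroup.mk ((unifFam A V x).Y o) : V ⧸ H)))
        ((unifFam A V x).J o, (QuotientAddGroup.mk ((unifFam A V x).Y o) : V ⧸ H)) =
      (nReg A (H.map V.subtype) (x + ((unifFam A V x).Y o : G)) : ℝ) / nReg A V x := by
    intro H o
    have h1 := pr_unif (1 / (Nat.card (RegΩ A V x) : ℝ)) (fun o => ((unifFam A V x).J o,
        (QuotientAddGroup.mk ((unifFam A V x).Y o) : V ⧸ H)))
        ((unifFam A V x).J o, (QuotientAddGroup.mk ((unifFam A V x).Y o) : V ⧸ H))
    refine h1.trans ?_
    rw [hcard, one_div, mul_comm, ← div_eq_mul_inv]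
    congr 2
    unfold nReg
    refine Set.ncard_congr (fun o' _ => ((unifFam A V x).Y o' : G) - ((unifFam A V x).Y o : G))
      ?_ ?_ ?_
    · intro o' ho'
      have h2 := (Fam.mk_eq_iff H _ _).1 (congrArg Prod.snd ho')
      refine ⟨⟨_, h2, by simp⟩, ?_⟩
      have h3 : x + ((unifFam A V x).Y o : G) + (((unifFam A V x).Y o' : G) -
          ((unifFam A V x).Y o : G)) = x + ((unifFam A V x).Y o' : G) := by abel
      show x + ((unifFam A V x).Y o : G) + (((unifFam A V x).Y o' : G) -
          ((unifFam A V x).Y o : G)) ∈ A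
      rw [h3]
      exact o'.2
    · intro o₁ o₂ _ _ h
      have h2 : ((unifFam A V x).Y o₁ : G) = ((unifFam A V x).Y o₂ : G) := sub_left_injective h
      exact Subtype.ext (Subtype.ext h2)
    · rintro v ⟨⟨u, hu, rfl⟩, hv⟩
      have h4 : x + (((unifFam A V x).Y o + u : V) : G) ∈ A := by
        have : x + (((unifFam A V x).Y o + u : V) : G) =
            x + ((unifFam A V x).Y o : G) + V.subtype u := by
          simp only [AddSubgroup.coe_add, AddSubgroup.subtype_apply]
          abel
        rw [this]
        exact hv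
      refine ⟨⟨(unifFam A V x).Y o + u, h4⟩, ?_, ?_⟩
      · show ((), (QuotientAddGroup.mk ((unifFam A V x).Y o + u) : V ⧸ H)) =
          ((), (QuotientAddGroup.mk ((unifFam A V x).Y o) : V ⧸ H))
        rw [Prod.mk.injEq, Fam.mk_eq_iff]
        refine ⟨rfl, ?_⟩
        rw [add_sub_cancel_left]
        exact hu
      · show ((((unifFam A V x).Y o + u : V) : G)) - ((unifFam A V x).Y o : G) = V.subtype u
        simp
  refine ⟨V, x, unifFam A V x, ?_, ?_, fun o => o.2⟩
  · -- slope
    intro H
    have hidx : (H.index : ℝ) * Nat.card (H.map V.subtype) = Nat.card V := by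
      have h1 := AddSubgroup.card_mul_index H
      have h2 : Nat.card (H.map V.subtype) = Nat.card H :=
        AddSubgroup.card_map_of_injective V.subtype_injective
      rw [h2]
      rw [mul_comm]
      exact_mod_cast h1
    have hi0 : (0 : ℝ) < H.index := by
      exact_mod_cast Nat.pos_of_ne_zero AddSubgroup.index_ne_zero_of_finite
    have hH0 : (0 : ℝ) < Nat.card (H.map V.subtype) := by exact_mod_cast Nat.card_pos
    have hlog : Real.log (Nat.card V) = Real.log H.index +
        Real.log (Nat.card (H.map V.subtype)) := by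
      rw [← hidx, Real.log_mul hi0.ne' hH0.ne']
    have hE := le_Ent_of_le (unifFam A V x).hw (fun o => ((unifFam A V x).J o,
        (QuotientAddGroup.mk ((unifFam A V x).Y o) : V ⧸ H)))
      (Real.log H.index - κ * (Real.log (H.map V.subtype ⊔ dbl G).index -
        Real.log (V ⊔ dbl G).index)) (by
        intro o
        rw [hpr H o]
        have hp : 0 < nReg A (H.map V.subtype) (x + ((unifFam A V x).Y o : G)) := by
          unfold nReg
          rw [Set.ncard_pos (Set.toFinite _)]
          refine ⟨0, AddSubgroup.zero_mem _, ?_⟩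
          rw [add_zero]
          exact o.2
        have hpR : (0 : ℝ) < nReg A (H.map V.subtype) (x + ((unifFam A V x).Y o : G)) := by
          exact_mod_cast hp
        have hm := hmax' _ _ hp
        unfold phiReg at hm
        rw [Real.log_div hpR.ne' hnR.ne']
        nlinarith)
    have hΔ : Real.log (H.map V.subtype ⊔ dbl G).index - Real.log (V ⊔ dbl G).index ≤
        Real.log (H ⊔ dbl V).index := by
      have h1 := index_map_sup_dbl_le V H
      have h2 : ((H.map V.subtype ⊔ dbl G).index : ℝ) ≤
          (H ⊔ dbl V).index * (V ⊔ dbl G).index := by exact_mod_cast h1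
      have p1 : (0 : ℝ) < (H.map V.subtype ⊔ dbl G).index := by
        exact_mod_cast Nat.pos_of_ne_zero AddSubgroup.index_ne_zero_of_finite
      have p2 : (0 : ℝ) < (H ⊔ dbl V).index := by
        exact_mod_cast Nat.pos_of_ne_zero AddSubgroup.index_ne_zero_of_finite
      have p3 : (0 : ℝ) < (V ⊔ dbl G).index := by
        exact_mod_cast Nat.pos_of_ne_zero AddSubgroup.index_ne_zero_of_finite
      have h3 := Real.log_le_log p1 h2
      rw [Real.log_mul p2.ne' p3.ne'] at h3
      linarith
    have hD : (unifFam A V x).D H = Real.log H.index -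
        (Ent (unifFam A V x).w (fun o => ((unifFam A V x).J o,
        (QuotientAddGroup.mk ((unifFam A V x).Y o) : V ⧸ H))) -
          Ent (unifFam A V x).w (unifFam A V x).J) := rfl
    rw [hD, hJ]
    have := mul_le_mul_of_nonneg_left hΔ hκ.le
    linarith
  · -- deficiency
    have hE : Real.log (nReg A V x) ≤ Ent (unifFam A V x).w (fun o => ((unifFam A V x).J o,
        (QuotientAddGroup.mk ((unifFam A V x).Y o) : V ⧸ (⊥ : AddSubgroup V)))) := by
      refine le_Ent_of_le (unifFam A V x).hw _ _ fun o => ?_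
      rw [hpr ⊥ o]
      have h1 : nReg A ((⊥ : AddSubgroup V).map V.subtype) (x + ((unifFam A V x).Y o : G)) = 1 := by
        unfold nReg
        rw [AddSubgroup.map_bot]
        have : {v : G | v ∈ (⊥ : AddSubgroup G) ∧ x + ((unifFam A V x).Y o : G) + v ∈ A} =
            {0} := by
          ext v
          simp only [Set.mem_setOf_eq, AddSubgroup.mem_bot, Set.mem_singleton_iff]
          constructor
          · exact fun h => h.1
          · rintro rfl
            refine ⟨rfl, ?_⟩
            rw [add_zero]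
            exact o.2
        rw [this, Set.ncard_singleton]
      rw [h1, Nat.cast_one, one_div, Real.log_inv, neg_neg]
    have hD : (unifFam A V x).D ⊥ = Real.log (⊥ : AddSubgroup V).index -
        (Ent (unifFam A V x).w (fun o => ((unifFam A V x).J o,
        (QuotientAddGroup.mk ((unifFam A V x).Y o) : V ⧸ (⊥ : AddSubgroup V)))) -
          Ent (unifFam A V x).w (unifFam A V x).J) := rfl
    have hm := hmax' ⊤ 0 (by rw [nReg_top]; exact hA.card_pos)
    unfold phiReg at hm
    rw [nReg_top, top_sup_eq, AddSubgroup.index_top, Nat.cast_one, Real.log_one, mul_zero,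
      sub_zero] at hm
    have hc : Nat.card (⊤ : AddSubgroup G) = Nat.card G := AddSubgroup.card_top
    rw [hc] at hm
    rw [hD, hJ, AddSubgroup.index_bot]
    linarith

end Pool.Agent.Helper15.BP
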